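import Pool.Agent.H36.Prism

namespace Pool.Agent.Results.MP_311ff9_lc.NoPTAS

open Pool.Agent.H38.NP Pool.Agent.H36 Pool.Agent.H36.Prism Finset
open scoped ENNReal

/-- `L_p` distance of two points with natural coordinates -/
noncomputable def dp (p : ℝ) (x y : List ℕ) : ℝ :=
  ((x.zip y).map fun q => |(q.1 : ℝ) - q.2| ^ p).sum ^ (1 / p)

/-- `L_p` distance for `p ∈ [1, ∞]` -/
noncomputable def dE (p : ℝ≥0∞) (x y : List ℕ) : ℝ :=
  if p = ⊤ then ((x.zip y).map fun q => |(q.1 : ℝ) - q.2|).foldr max 0 else dp p.toReal x y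

/-- a set of points of the same dimension -/
def Inst (P : List (List ℕ)) : Prop := P ≠ [] ∧ P.Nodup ∧ ∃ s, 0 < s ∧ ∀ x ∈ P, x.length = s

/-- the labels `c` partition the points into triples -/
def Tris (P : List (List ℕ)) (c : List ℕ) : Prop :=
  ∀ v < P.length, #(part P.length c (c.getD v 0)) = 3

/-- total perimeter: half the sum over ordered pairs in the same triple -/
noncomputable def per (d : List ℕ → List ℕ → ℝ) (P : List (List ℕ)) (c : List ℕ) : ℝ :=
  (∑ u ∈ range P.length, ∑ v ∈ part P.length c (c.getD u 0), d (P.getD u []) (P.getD v [])) / 2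

def PTAS (d : List ℕ → List ℕ → ℝ) : Prop :=
  ∀ ε : ℝ, 0 < ε → ∃ f, PolyTime f ∧ ∀ P c', Inst P → Tris P c' → ∃ c : List ℕ,
    f (enc P) = enc c ∧ Tris P c ∧ (1 - ε) * per d P c' ≤ per d P c

def Bdd (B : ℕ) (J : Sys) : Prop :=
  Valid B J ∧ ∀ x, #{t ∈ range J.2.length | ∃ s ∈ range 3, el J t s = x} ≤ B

def NearPerfect (B : ℕ) (ε : ℝ) : Prop :=
  ∃ g, PolyTime g ∧ ∀ J : Sys, Bdd B J → Perfect J → ∃ M : List ℕ, g (enc J) = enc M ∧
    Pack J M ∧ (1 - ε) * J.1 ≤ 3 * M.length

def aj (G : Gr) (u v : ℕ) : Prop := ¬ u = v ∧ ((u, v) ∈ G.2 ∨ (v, u) ∈ G.2)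

instance (G : Gr) (u v : ℕ) : Decidable (aj G u v) := by unfold aj; infer_instance

def deg (G : Gr) (v : ℕ) : ℕ := ((List.range G.1).filter fun w => decide (aj G v w)).length

def val (D : ℕ) (G : Gr) (v a b : ℕ) : ℕ :=
  if b < G.1 then (if aj G a b then (if v = a then 2 else if v = b then 0 else 1) else 1)
  else if a = v ∧ b - G.1 + 2 * deg G v < D then 2 else 1

def emb (D : ℕ) (G : Gr) : List (List ℕ) :=
  (List.range G.1).map fun v =>
    ((List.range G.1).product (List.range (G.1 + D))).map fun q => val D G v q.1 q.2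

theorem deg_eq (G : Gr) (v : ℕ) : deg G v = #{w ∈ range G.1 | Adj G v w} := flen _ _

theorem emb_get (D : ℕ) (G : Gr) {v : ℕ} (hv : v < G.1) : (emb D G).getD v [] =
    ((List.range G.1).product (List.range (G.1 + D))).map fun q => val D G v q.1 q.2 := by
  unfold emb
  rw [List.getD_eq_getElem _ _ (by simpa using hv)]; simp

theorem emb_len (D : ℕ) (G : Gr) : (emb D G).length = G.1 := by simp [emb]

theorem dp_eq (p : ℝ) (D : ℕ) (G : Gr) {u v : ℕ} (hu : u < G.1) (hv : v < G.1) :
    dp p ((emb D G).getD u []) ((emb D G).getD v []) = (∑ a ∈ range G.1, ∑ b ∈ range (G.1 + D),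
      |(val D G u a b : ℝ) - val D G v a b| ^ p) ^ (1 / p) := by
  unfold dp
  rw [emb_get D G hu, emb_get D G hv, List.zip_map', List.map_map,
    ← List.sum_toFinset _ (show ((List.range G.1).product (List.range (G.1 + D))).Nodup from
      List.nodup_range.product List.nodup_range), ← sum_product']
  congr 1
  refine sum_congr ?_ fun _ _ => rfl
  ext ⟨a, b⟩
  simp

theorem dp_self {p : ℝ} (hp : 1 < p) (D : ℕ) (G : Gr) {u : ℕ} (hu : u < G.1) :
    dp p ((emb D G).getD u []) ((emb D G).getD u []) = 0 := by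
  rw [dp_eq p D G hu hu]
  simp [Real.zero_rpow (show p ≠ 0 by positivity), show p ≠ 0 by positivity]

theorem t1 {p : ℝ} (hp : 1 < p) (D : ℕ) (G : Gr) {u v a b : ℕ} (h : u ≠ v) (hb : b < G.1) :
    |(val D G u a b : ℝ) - val D G v a b| ^ p =
      (if a = u then if Adj G u b then 1 else 0 else 0) +
      (if b = u then if Adj G u a then 1 else 0 else 0) +
      (if a = v then if Adj G v b then 1 else 0 else 0) +
      (if b = v then if Adj G v a then 1 else 0 else 0) +
      (if a = u then if b = v then if Adj G u v then 2 ^ p - 2 else 0 else 0 else 0) +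
      (if a = v then if b = u then if Adj G u v then 2 ^ p - 2 else 0 else 0 else 0) := by
  have hp0 : p ≠ 0 := by positivity
  have e : aj G a b ↔ Adj G a b := Iff.rfl
  have e2 : Adj G b a ↔ Adj G a b := ⟨symm, symm⟩
  have h' := h.symm
  unfold val
  rw [if_pos hb, if_pos hb]
  simp only [e]
  by_cases hab : Adj G a b
  · have h0 := hab.1
    have h1 := h0.symm
    by_cases c1 : a = u <;> by_cases c2 : b = u <;> by_cases c3 : a = v <;> by_cases c4 : b = v <;>
      (try subst c1) <;> (try subst c2) <;> (try subst c3) <;> (try subst c4) <;>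
      simp_all [eq_comm] <;> norm_num
  · by_cases c1 : a = u <;> by_cases c2 : b = u <;> by_cases c3 : a = v <;> by_cases c4 : b = v <;>
      (try subst c1) <;> (try subst c2) <;> (try subst c3) <;> (try subst c4) <;>
      simp_all [eq_comm]

theorem t2 {p : ℝ} (hp : 1 < p) (D : ℕ) (G : Gr) {u v a j : ℕ} (h : u ≠ v) :
    |(val D G u a (G.1 + j) : ℝ) - val D G v a (G.1 + j)| ^ p =
      (if a = u then if j < D - 2 * deg G u then 1 else 0 else 0) +
      (if a = v then if j < D - 2 * deg G v then 1 else 0 else 0) := by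
  have hp0 : p ≠ 0 := by positivity
  have h' := h.symm
  unfold val
  rw [if_neg (by omega), if_neg (by omega : ¬ G.1 + j < G.1)]
  simp only [Nat.add_sub_cancel_left, Nat.lt_sub_iff_add_lt]
  by_cases c1 : a = u <;> by_cases c3 : a = v <;> by_cases c2 : j + 2 * deg G u < D <;>
    by_cases c4 : j + 2 * deg G v < D <;> (try exact absurd (c1.symm.trans c3) h) <;>
    simp only [c1, c2, c3, c4, h, h', if_true, if_false, true_and, false_and, and_true,
      and_false] <;> norm_num [hp0]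

theorem dp_ne {p : ℝ} (hp : 1 < p) (D : ℕ) (G : Gr) (hD : ∀ v < G.1, 2 * deg G v ≤ D) {u v : ℕ}
    (hu : u < G.1) (hv : v < G.1) (h : u ≠ v) :
    dp p ((emb D G).getD u []) ((emb D G).getD v []) =
      (2 * D + if Adj G u v then 2 * (2 ^ p - 2) else 0) ^ (1 / p) := by
  rw [dp_eq p D G hu hv]
  congr 1
  have k1 : ∀ w, (∑ b ∈ range G.1, if Adj G w b then (1 : ℝ) else 0) = deg G w := fun w => by
    rw [deg_eq, card_filter]; push_cast; rfl
  have k2 : ∀ w < G.1, (∑ j ∈ range D, if j < D - 2 * deg G w then (1 : ℝ) else 0) =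
      D - 2 * deg G w := fun w hw => by
    rw [sum_boole, show {j ∈ range D | j < D - 2 * deg G w} = range (D - 2 * deg G w) by
      ext; simp; omega, card_range, Nat.cast_sub (hD w hw)]
    push_cast; rfl
  have k3 : ∀ a, ∑ b ∈ range (G.1 + D), |(val D G u a b : ℝ) - val D G v a b| ^ p =
      (if a = u then (D - deg G u : ℝ) else 0) + (if Adj G u a then 1 else 0) +
      (if a = v then (D - deg G v : ℝ) else 0) + (if Adj G v a then 1 else 0) +
      (if a = u then if Adj G u v then 2 ^ p - 2 else 0 else 0) +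
      (if a = v then if Adj G u v then 2 ^ p - 2 else 0 else 0) := fun a => by
    rw [sum_range_add, sum_congr rfl fun b hb => t1 hp D G h (mem_range.1 hb),
      sum_congr rfl fun j _ => t2 hp D G h]
    simp only [sum_add_distrib, sum_ite_irrel, sum_const_zero, sum_ite_eq', mem_range, hu, hv,
      if_true, k1, k2 u hu, k2 v hv]
    split_ifs <;> ring
  simp only [k3, sum_add_distrib, sum_ite_eq', mem_range, hu, hv, if_true, k1]
  split_ifs <;> ring

theorem deg_le {B : ℕ} {J : Sys} (hJ : Bdd B J) : ∀ v < (red J).1,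
    2 * deg (red J) v ≤ 12 * B + 14 := fun v hv => by
  classical
  rw [deg_eq]
  by_cases hx : v < J.1
  · have : {w ∈ range (red J).1 | Adj (red J) v w} ⊆
        {t ∈ range J.2.length | ∃ s ∈ range 3, el J t s = v}.biUnion fun t =>
          (range 6).image fun i => J.1 + 6 * t + i := fun w hw => by
      have h := (mem_filter.1 hw).2
      obtain ⟨t, s, r, hs, hr, e⟩ := coord (fun hb => adjEE hx hb h)
      rw [e, adjEG hx hs hr] at h
      simp only [mem_biUnion, mem_filter, mem_range, mem_image]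
      exact ⟨t, ⟨h.1, s, hs, h.2.symm⟩, 2 * s + r, by omega, by omega⟩
    have h1 := (card_le_card this).trans
      (card_biUnion_le_card_mul _ _ 6 fun _ _ => card_image_le.trans (by simp))
    have := hJ.2 v
    omega
  · obtain ⟨t, s, r, hs, hr, e⟩ := coord hx
    have : {w ∈ range (red J).1 | Adj (red J) v w} ⊆
        insert (el J t s) ((range 6).image fun i => J.1 + 6 * t + i) := fun w hw => by
      have h := (mem_filter.1 hw).2
      simp only [mem_insert, mem_range, mem_image]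
      by_cases hy : w < J.1
      · have h := symm h
        rw [e, adjEG hy hs hr] at h
        exact Or.inl h.2
      · obtain ⟨t', s', r', hs', hr', e'⟩ := coord hy
        rw [e, e', adjGG hs hr hs' hr'] at h
        exact Or.inr ⟨2 * s' + r', by omega, by omega⟩
    have h1 := (card_le_card this).trans (card_insert_le _ _)
    have h2 : #((range 6).image fun i => J.1 + 6 * t + i) ≤ 6 := card_image_le.trans (by simp)
    omega

theorem mem_part {N : ℕ} {c : List ℕ} {i v : ℕ} : v ∈ part N c i ↔ v < N ∧ c.getD v 0 = i := by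
  simp [part]

section
variable {p : ℝ} (hp : 1 < p) (D : ℕ) (G : Gr) (hD : ∀ v < G.1, 2 * deg G v ≤ D)
include hp hD

theorem inst (h0 : 0 < G.1) (h1 : 0 < D) : Inst (emb D G) := by
  refine ⟨fun h => by have := emb_len D G; rw [h] at this; simp at this; omega, ?_,
    G.1 * (G.1 + D), by positivity, fun x hx => ?_⟩
  · refine List.Nodup.map_on (fun u hu v hv e => ?_) List.nodup_range
    rw [List.mem_range] at hu hv
    by_contra h
    have a1 := dp_ne hp D G hD hu hv h
    rw [emb_get D G hv, ← e, ← emb_get D G hu, dp_self hp D G hu] at a1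
    have a2 : (2 : ℝ) ^ (1 : ℝ) < 2 ^ p := Real.rpow_lt_rpow_of_exponent_lt (by norm_num) hp
    rw [Real.rpow_one] at a2
    have a3 : (0 : ℝ) < D := by exact_mod_cast h1
    refine (Real.rpow_pos_of_pos ?_ _).ne a1
    split_ifs <;> nlinarith
  · obtain ⟨v, -, rfl⟩ := List.mem_map.1 hx
    rw [List.length_map]
    exact (List.length_product _ _).trans (by simp)

end

open Classical in
theorem bad_le (G : Gr) {P : List (List ℕ)} (hP : P.length = G.1) {c : List ℕ} (hc : Tris P c) :
    #{v ∈ range G.1 | ¬ Tri G (part G.1 c (c.getD v 0))} ≤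
      3 * ∑ u ∈ range G.1, #{v ∈ (part G.1 c (c.getD u 0)).erase u | ¬ Adj G u v} := by
  unfold Tris at hc
  rw [hP] at hc
  have : {v ∈ range G.1 | ¬ Tri G (part G.1 c (c.getD v 0))} ⊆ (range G.1).biUnion fun u =>
      {v ∈ (part G.1 c (c.getD u 0)).erase u | ¬ Adj G u v}.biUnion fun _ =>
        part G.1 c (c.getD u 0) := fun x hx => by
    obtain ⟨h1, h2⟩ := mem_filter.1 hx
    rw [mem_range] at h1
    unfold Tri at h2
    push Not at h2
    obtain ⟨u, hu, v, hv, h3, h4⟩ := h2 (hc x h1)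
    rw [mem_part] at hu hv
    simp only [mem_biUnion, mem_range, mem_filter, mem_erase, mem_part]
    exact ⟨u, hu.1, v, ⟨⟨h3.symm, hv.1, hv.2.trans hu.2.symm⟩, h4⟩, h1, hu.2.symm⟩
  refine (card_le_card this).trans (card_biUnion_le.trans ?_)
  rw [mul_sum]
  exact sum_le_sum fun u hu => (card_biUnion_le_card_mul _ _ 3 fun _ _ =>
    (hc u (mem_range.1 hu)).le).trans (le_of_eq (mul_comm _ _))

theorem pt_deg : PT fun q : Gr × ℕ => deg q.1 q.2 := by unfold deg aj; fun_prop

theorem pt_emb (D : ℕ) : PT (emb D) := by unfold emb val deg aj; fun_prop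

/-- edges have length `a`, non-edges at most `b` -/
def Good (d : List ℕ → List ℕ → ℝ) (G : Gr) (P : List (List ℕ)) (a b : ℝ) : Prop :=
  P.length = G.1 ∧ ∀ u < G.1, d (P.getD u []) (P.getD u []) = 0 ∧ ∀ v < G.1, u ≠ v →
    (Adj G u v → d (P.getD u []) (P.getD v []) = a) ∧
    (¬ Adj G u v → d (P.getD u []) (P.getD v []) ≤ b)

theorem per_le {d G P a b} (h : Good d G P a b) {c : List ℕ} (hc : Tris P c) : per d P c ≤
    G.1 * a - (∑ u ∈ range G.1, #{v ∈ (part G.1 c (c.getD u 0)).erase u | ¬ Adj G u v} : ℕ) *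
      (a - b) / 2 := by
  have row : ∀ u ∈ range G.1, ∑ v ∈ part G.1 c (c.getD u 0), d (P.getD u []) (P.getD v []) ≤
      2 * a - #{v ∈ (part G.1 c (c.getD u 0)).erase u | ¬ Adj G u v} * (a - b) := fun u hu => by
    rw [mem_range] at hu
    have h1 : u ∈ part G.1 c (c.getD u 0) := mem_part.2 ⟨hu, rfl⟩
    have h2 := hc u (by rwa [h.1])
    rw [h.1] at h2
    have h3 : #((part G.1 c (c.getD u 0)).erase u) = 2 := by rw [card_erase_of_mem h1, h2]
    rw [← add_sum_erase _ _ h1, (h.2 u hu).1, zero_add, card_filter, Nat.cast_sum, sum_mul,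
      show (2 : ℝ) * a = ∑ v ∈ (part G.1 c (c.getD u 0)).erase u, a by
        rw [sum_const, h3]; simp, ← sum_sub_distrib]
    refine sum_le_sum fun v hv => ?_
    have := (h.2 u hu).2 v (mem_part.1 (mem_of_mem_erase hv)).1 (ne_of_mem_erase hv).symm
    by_cases h' : Adj G u v
    · simp [h', ← this.1 h']
    · simpa [h'] using this.2 h'
  have := sum_le_sum row
  unfold per
  rw [h.1]
  rw [sum_sub_distrib, ← sum_mul, ← sum_mul] at this
  simp only [sum_const, card_range, nsmul_eq_mul, Nat.cast_sum] at this ⊢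
  linarith

theorem per_ge {d G P a b} (h : Good d G P a b) {c : List ℕ}
    (hc : ∀ v < G.1, Tri G (part G.1 c (c.getD v 0))) : per d P c = G.1 * a := by
  have row : ∀ u ∈ range G.1, ∑ v ∈ part G.1 c (c.getD u 0), d (P.getD u []) (P.getD v []) =
      2 * a := fun u hu => by
    rw [mem_range] at hu
    have h1 : u ∈ part G.1 c (c.getD u 0) := mem_part.2 ⟨hu, rfl⟩
    have h3 : #((part G.1 c (c.getD u 0)).erase u) = 2 := by
      rw [card_erase_of_mem h1, (hc u hu).1]
    rw [← add_sum_erase _ _ h1, (h.2 u hu).1, zero_add, sum_congr rfl fun v hv =>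
      ((h.2 u hu).2 v (mem_part.1 (mem_of_mem_erase hv)).1 (ne_of_mem_erase hv).symm).1
        ((hc u hu).2 u h1 v (mem_of_mem_erase hv) (ne_of_mem_erase hv).symm), sum_const, h3]
    simp
  unfold per
  rw [h.1, sum_congr rfl row]
  simp only [sum_const, card_range, nsmul_eq_mul]
  ring

theorem main {d} (h : PTAS d) (B : ℕ) (E : Sys → List (List ℕ)) (hE : PT E) (C : ℝ) (hC : 0 < C)
    (H : ∀ J, Bdd B J → 0 < J.1 → Inst (E J) ∧ ∃ a b, Good d (red J) (E J) a b ∧ 0 < a - b ∧
      a ≤ C * (a - b)) (ε : ℝ) (hε : 0 < ε) : NearPerfect B ε := by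
  classical
  obtain ⟨f, hf, h⟩ := h (ε / (18 * C * (1 + 6 * B))) (by positivity)
  have h3 : PT fun J : Sys => (Dec.dec (⟨f (enc (E J))⟩ : Bits) : List ℕ) :=
    Dec.pt.comp ((Sim.pt_of_polyTime hf).comp hE.raw)
  obtain ⟨g, hg, h4⟩ := (pt_back.comp (PT.id'.mk h3)).polyTimeOn fun _ => True
  refine ⟨g, hg, fun J hJ hP => ?_⟩
  rcases Nat.eq_zero_or_pos J.1 with h0 | h0
  · refine ⟨_, h4 J trivial, back_pack hJ.1 _, ?_⟩
    rw [h0]; simp
  obtain ⟨c0, h6⟩ := forth hJ.1 hP
  obtain ⟨hI, a, b, hG, hab, haC⟩ := H J hJ h0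
  have hc0 : Tris (E J) c0 := fun v hv => by
    rw [hG.1] at hv ⊢; exact (h6 v hv).1
  obtain ⟨c, e, hc, h5⟩ := h _ c0 hI hc0
  refine ⟨back J c, by
    rw [h4 J trivial]; simp only [e]; exact congrArg _ (congrArg _ (Dec.dec_raw c)),
    back_pack hJ.1 c, ?_⟩
  rw [per_ge hG h6] at h5
  replace h5 := h5.trans (per_le hG hc)
  have h8 := (cover hJ.1 c).trans
    (Nat.add_le_add_left (Nat.mul_le_mul_left 3 (bad_le _ hG.1 hc)) _)
  generalize ∑ u ∈ range (red J).1,
      #{v ∈ (part (red J).1 c (c.getD u 0)).erase u | ¬ Adj (red J) u v} = W at h5 h8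
  have h10 := (Nat.cast_le (α := ℝ)).2 h8
  have h12 : ((red J).1 : ℝ) ≤ (1 + 6 * B) * J.1 := by
    have := hJ.1.2
    have : (red J).1 ≤ (1 + 6 * B) * J.1 := by
      show J.1 + 6 * J.2.length ≤ _
      nlinarith
    exact_mod_cast this
  have h13 : ε / (18 * C * (1 + 6 * B)) * ((red J).1 * a) ≤ ε * J.1 / 18 * (a - b) := by
    refine (mul_le_mul_of_nonneg_left ((mul_le_mul_of_nonneg_left haC (Nat.cast_nonneg _)).trans
      (mul_le_mul_of_nonneg_right h12 (by positivity))) (by positivity)).trans (le_of_eq ?_)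
    field_simp
  have h14 : (W : ℝ) / 2 * (a - b) ≤ ε * J.1 / 18 * (a - b) := by linarith
  have := le_of_mul_le_mul_right h14 hab
  push_cast at h10
  linarith

theorem caseP (p : ℝ) (hp : 1 < p) (h : PTAS (dp p)) (B : ℕ) (ε : ℝ) (hε : 0 < ε) :
    NearPerfect B ε := by
  obtain ⟨D, hD⟩ : ∃ D, D = 12 * B + 14 := ⟨_, rfl⟩
  obtain ⟨a, ha⟩ : ∃ a : ℝ, a = (2 * D + 2 * (2 ^ p - 2)) ^ (1 / p) := ⟨_, rfl⟩
  obtain ⟨b, hb⟩ : ∃ b : ℝ, b = (2 * D : ℝ) ^ (1 / p) := ⟨_, rfl⟩
  have a2 : (2 : ℝ) ^ (1 : ℝ) < 2 ^ p := Real.rpow_lt_rpow_of_exponent_lt (by norm_num) hp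
  rw [Real.rpow_one] at a2
  have hb0 : 0 ≤ b := by rw [hb]; positivity
  have hab : 0 < a - b := by
    rw [ha, hb]
    exact sub_pos.2 (Real.rpow_lt_rpow (by positivity) (by linarith) (by positivity))
  have ha0 : 0 < a := by linarith
  refine main h B _ ((pt_emb D).comp pt_red) (a / (a - b)) (by positivity) (fun J hJ h0 => ?_) ε hε
  have hd : ∀ v < (red J).1, 2 * deg (red J) v ≤ D := hD ▸ deg_le hJ
  refine ⟨inst hp D (red J) hd (by show 0 < J.1 + _; omega) (by omega), a, b,
    ⟨emb_len _ _, fun u hu => ⟨dp_self hp D _ hu, fun v hv huv => ?_⟩⟩, hab, by field_simp; rfl⟩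
  rw [dp_ne hp D _ hd hu hv huv]
  exact ⟨fun h => by rw [if_pos h, ha], fun h => by rw [if_neg h, hb, add_zero]⟩

theorem fm_le {l : List ℝ} {c : ℝ} (hc : 0 ≤ c) (h : ∀ x ∈ l, x ≤ c) : l.foldr max 0 ≤ c := by
  induction l with
  | nil => exact hc
  | cons a l ih => exact max_le (h a (by simp)) (ih fun x hx => h x (by simp [hx]))

theorem le_fm {l : List ℝ} {x : ℝ} (h : x ∈ l) : x ≤ l.foldr max 0 := by
  induction l with
  | nil => simp at h
  | cons a l ih =>
    rcases List.mem_cons.1 h with rfl | h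
    exacts [le_max_left _ _, (ih h).trans (le_max_right _ _)]

theorem fm_nn (l : List ℝ) : 0 ≤ l.foldr max 0 := by
  induction l with
  | nil => exact le_rfl
  | cons a l ih => exact ih.trans (le_max_right _ _)

theorem caseT (h : PTAS (dE ⊤)) (B : ℕ) (ε : ℝ) (hε : 0 < ε) : NearPerfect B ε := by
  obtain ⟨D, hD⟩ : ∃ D, D = 12 * B + 14 := ⟨_, rfl⟩
  refine main h B _ ((pt_emb D).comp pt_red) 2 (by positivity) (fun J hJ h0 => ?_) ε hε
  have hd : ∀ v < (red J).1, 2 * deg (red J) v ≤ D := hD ▸ deg_le hJ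
  refine ⟨inst one_lt_two D (red J) hd (by show 0 < J.1 + _; omega) (by omega), 2, 1,
    ⟨emb_len _ _, fun u hu => ?_⟩, by norm_num, by norm_num⟩
  generalize red J = G at *
  have e : ∀ v < G.1, dE ⊤ ((emb D G).getD u []) ((emb D G).getD v []) =
      (((List.range G.1).product (List.range (G.1 + D))).map fun q =>
        |(val D G u q.1 q.2 : ℝ) - val D G v q.1 q.2|).foldr max 0 := fun v hv => by
    unfold dE
    rw [if_pos rfl, emb_get D G hu, emb_get D G hv, List.zip_map', List.map_map]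
    rfl
  refine ⟨?_, fun v hv huv => ⟨fun h => ?_, fun h => ?_⟩⟩
  · rw [e u hu]
    exact le_antisymm (fm_le le_rfl (by simp)) (fm_nn _)
  · rw [e v hv]
    refine le_antisymm (fm_le (by norm_num) fun x hx => ?_) (le_fm (List.mem_map.2 ⟨(u, v),
      by simp [List.pair_mem_product]; omega, ?_⟩))
    · obtain ⟨q, -, rfl⟩ := List.mem_map.1 hx
      unfold val
      split_ifs <;> norm_num
    · have : aj G u v := h
      simp [val, hv, this, huv.symm]
  · rw [e v hv]
    refine fm_le (by norm_num) fun x hx => ?_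
    obtain ⟨⟨a, b⟩, -, rfl⟩ := List.mem_map.1 hx
    unfold val
    split_ifs <;> first | (norm_num; done) | (exfalso; subst_vars; first | exact h ‹_› | exact h (symm ‹_›))

def pr (N : ℕ) : ℕ := ((List.range (2 * N + 3)).filter fun n => decide (N < n ∧ 2 ≤ n ∧
  ((List.range n).filter fun d => decide (2 ≤ d ∧ n % d = 0)).length = 0)).getD 0 0

theorem pr_spec (N : ℕ) : N < pr N ∧ (pr N).Prime := by
  obtain ⟨q, hq, h1, h2⟩ := Nat.exists_prime_lt_and_le_two_mul (N + 1) (by omega)
  have key : ∀ n, 2 ≤ n → (((List.range n).filter fun d => decide (2 ≤ d ∧ n % d = 0)).length = 0 ↔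
      n.Prime) := fun n hn => by
    rw [Nat.prime_def_lt']
    simp only [List.length_eq_zero_iff, List.filter_eq_nil_iff, List.mem_range, decide_eq_true_eq,
      hn, true_and, Nat.dvd_iff_mod_eq_zero]
    exact ⟨fun h m h1 h2 h3 => h m h2 ⟨h1, h3⟩, fun h m h1 h2 => h m h2.1 h1 h2.2⟩
  have hm : q ∈ (List.range (2 * N + 3)).filter fun n => decide (N < n ∧ 2 ≤ n ∧
      ((List.range n).filter fun d => decide (2 ≤ d ∧ n % d = 0)).length = 0) := by
    simp only [List.mem_filter, List.mem_range, decide_eq_true_eq]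
    exact ⟨by omega, by omega, hq.two_le, (key q hq.two_le).2 hq⟩
  have := List.getElem_mem (List.length_pos_of_mem hm)
  rw [← List.getD_eq_getElem _ 0] at this
  simp only [List.mem_filter, List.mem_range, decide_eq_true_eq] at this
  exact ⟨this.2.1, (key _ this.2.2.1).1 this.2.2.2⟩

def hh (q k : ℕ) (y : ℕ × ℕ) : ℕ := (y.1 * k + y.2) % q % 2

theorem hh_cnt {q k l α β : ℕ} (hq : q.Prime) (hk : k < q) (hl : l < q) (h : k ≠ l) (hα : α < 2)
    (hβ : β < 2) : (q / 2) * (q / 2) ≤ #{y ∈ range q ×ˢ range q | hh q k y = α ∧ hh q l y = β} := by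
  have := Fact.mk hq
  have hkl : (k : ZMod q) - l ≠ 0 := sub_ne_zero.2 fun e => h (by
    have := (ZMod.natCast_eq_natCast_iff' k l q).1 e
    rwa [Nat.mod_eq_of_lt hk, Nat.mod_eq_of_lt hl] at this)
  rw [← card_range (q / 2), ← card_product]
  refine card_le_card_of_surjOn (fun y => ((y.1 * k + y.2) % q / 2, (y.1 * l + y.2) % q / 2)) ?_
  rintro ⟨i, j⟩ hij
  simp only [coe_product, coe_range, Set.mem_prod, Set.mem_Iio] at hij
  obtain ⟨a, ha⟩ : ∃ a : ZMod q, a = (((2 * i + α : ℕ) : ZMod q) - (2 * j + β : ℕ)) / (k - l) :=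
    ⟨_, rfl⟩
  obtain ⟨b, hb⟩ : ∃ b : ZMod q, b = ((2 * i + α : ℕ) : ZMod q) - a * k := ⟨_, rfl⟩
  have e1 : (a.val * k + b.val) % q = 2 * i + α := by
    rw [← Nat.mod_eq_of_lt (show 2 * i + α < q by omega), ← ZMod.natCast_eq_natCast_iff',
      Nat.cast_add, Nat.cast_mul, ZMod.natCast_zmod_val, ZMod.natCast_zmod_val, hb]
    ring
  have e2 : (a.val * l + b.val) % q = 2 * j + β := by
    rw [← Nat.mod_eq_of_lt (show 2 * j + β < q by omega), ← ZMod.natCast_eq_natCast_iff',
      Nat.cast_add, Nat.cast_mul, ZMod.natCast_zmod_val, ZMod.natCast_zmod_val, hb]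
    have := (eq_div_iff hkl).1 ha
    linear_combination -this
  refine ⟨(a.val, b.val), ?_, ?_⟩
  · simp only [coe_filter, mem_product, mem_range, Set.mem_ofPred_eq, hh, e1, e2]
    exact ⟨⟨a.val_lt, b.val_lt⟩, by omega, by omega⟩
  · simp only [e1, e2, Prod.mk.injEq]
    omega

def occ (J : Sys) (t x : ℕ) : ℕ :=
  ((List.range t).filter fun t' => decide (el J t' 0 = x ∨ el J t' 1 = x ∨ el J t' 2 = x)).length

def col (J : Sys) (v : ℕ) : ℕ :=
  if v < J.1 then 0 else 1 + 6 * occ J ((v - J.1) / 6) (el J ((v - J.1) / 6) ((v - J.1) % 6 / 2)) +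
    (v - J.1) % 6

theorem colG (J : Sys) (t : ℕ) {s r : ℕ} (hs : s < 3) (hr : r < 2) :
    col J (J.1 + 6 * t + 2 * s + r) = 1 + 6 * occ J t (el J t s) + (2 * s + r) := by
  unfold col
  rw [if_neg (by omega), (cd J.1 t hs hr).1, (cd J.1 t hs hr).2.1]
  omega

theorem occ_lt (J : Sys) {t t' s : ℕ} (hs : s < 3) (h : t < t') :
    occ J t (el J t s) < occ J t' (el J t s) := by
  unfold occ
  rw [flen, flen]
  refine card_lt_card ⟨filter_subset_filter _ (range_subset_range.2 h.le), fun hc => ?_⟩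
  have := hc (mem_filter.2 ⟨mem_range.2 h, by
    obtain rfl | rfl | rfl : s = 0 ∨ s = 1 ∨ s = 2 := by omega
    all_goals simp⟩)
  simp at this

theorem col_lt {B : ℕ} {J : Sys} (hJ : Bdd B J) {v : ℕ} (hv : v < (red J).1) :
    col J v < 6 * B + 7 := by
  by_cases hx : v < J.1
  · simp [col, hx]
  obtain ⟨t, s, r, hs, hr, e⟩ := coord hx
  have hN : (red J).1 = J.1 + 6 * J.2.length := rfl
  rw [e, colG J t hs hr]
  have : occ J t (el J t s) ≤ B := by
    unfold occ
    rw [flen]
    refine (card_le_card fun x hx => ?_).trans (hJ.2 (el J t s))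
    simp only [mem_filter, mem_range] at hx ⊢
    refine ⟨by omega, ?_⟩
    rcases hx.2 with h | h | h <;> exact ⟨_, by omega, h⟩
  omega

theorem col_ne {J : Sys} {u v : ℕ} (h : Adj (red J) u v) : col J u ≠ col J v := by
  by_cases hu : u < J.1
  · obtain ⟨t, s, r, hs, hr, e⟩ := coord (fun hb => adjEE hu hb h)
    rw [e, colG J t hs hr, col, if_pos hu]; omega
  obtain ⟨t, s, r, hs, hr, e⟩ := coord hu
  by_cases hv : v < J.1
  · rw [e, colG J t hs hr, col, if_pos hv]; omega
  obtain ⟨t', s', r', hs', hr', e'⟩ := coord hv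
  rw [e, e', adjGG hs hr hs' hr'] at h
  rw [e, e', colG J t hs hr, colG J t' hs' hr']
  omega

theorem col_uniq {J : Sys} {u v w : ℕ} (h : Adj (red J) u v) (h' : Adj (red J) u w)
    (e : col J v = col J w) : v = w := by
  by_cases hu : u < J.1
  · obtain ⟨t, s, r, hs, hr, e1⟩ := coord (fun hb => adjEE hu hb h)
    obtain ⟨t', s', r', hs', hr', e2⟩ := coord (fun hb => adjEE hu hb h')
    rw [e1, adjEG hu hs hr] at h
    rw [e2, adjEG hu hs' hr'] at h'
    rw [e1, e2, colG J t hs hr, colG J t' hs' hr'] at e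
    have a1 := occ_lt J (t := t) (t' := t') hs
    have a2 := occ_lt J (t := t') (t' := t) hs'
    rw [← h.2] at a1 e
    rw [← h'.2] at a2 e
    omega
  obtain ⟨t, s, r, hs, hr, e0⟩ := coord hu
  by_cases hv : v < J.1 <;> by_cases hw : w < J.1
  · have a1 := symm h
    have a2 := symm h'
    rw [e0, adjEG hv hs hr] at a1
    rw [e0, adjEG hw hs hr] at a2
    exact a1.2.trans a2.2.symm
  · obtain ⟨t', s', r', hs', hr', e2⟩ := coord hw
    rw [e2, colG J t' hs' hr', col, if_pos hv] at e; omega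
  · obtain ⟨t', s', r', hs', hr', e2⟩ := coord hv
    rw [e2, colG J t' hs' hr', col, if_pos hw] at e; omega
  · obtain ⟨t1, s1, r1, hs1, hr1, e1⟩ := coord hv
    obtain ⟨t2, s2, r2, hs2, hr2, e2⟩ := coord hw
    rw [e0, e1, adjGG hs hr hs1 hr1] at h
    rw [e0, e2, adjGG hs hr hs2 hr2] at h'
    rw [e1, e2, colG J t1 hs1 hr1, colG J t2 hs2 hr2] at e
    have := h.2.1; have := h'.2.1
    clear h h'
    omega

def nb (J : Sys) (v i : ℕ) : ℕ :=
  ((List.range (red J).1).filter fun w => decide (aj (red J) v w ∧ col J w = i)).getD 0 v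

theorem nb_cases (J : Sys) (v i : ℕ) : (nb J v i = v ∧ ∀ w < (red J).1, Adj (red J) v w → col J w ≠ i) ∨
    (nb J v i < (red J).1 ∧ Adj (red J) v (nb J v i) ∧ col J (nb J v i) = i) := by
  unfold nb
  cases h : (List.range (red J).1).filter fun w => decide (aj (red J) v w ∧ col J w = i) with
  | nil =>
    simp only [List.filter_eq_nil_iff, List.mem_range, decide_eq_true_eq] at h
    exact Or.inl ⟨rfl, fun w hw h1 h2 => h w hw ⟨h1, h2⟩⟩
  | cons a l =>
    have : a ∈ (List.range (red J).1).filter fun w => decide (aj (red J) v w ∧ col J w = i) := by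
      rw [h]; simp
    simp only [List.mem_filter, List.mem_range, decide_eq_true_eq] at this
    exact Or.inr this

def v1 (J : Sys) (v : ℕ) (z : (ℕ × ℕ) × ℕ × ℕ) : ℕ :=
  if col J v = z.1.1 then 2 * hh (pr (red J).1) v z.2
  else if col J v = z.1.2 then 2 - 2 * hh (pr (red J).1) (nb J v z.1.1) z.2 else 1

def cs (K q : ℕ) : List ((ℕ × ℕ) × ℕ × ℕ) :=
  ((List.range K).product (List.range K)).product ((List.range q).product (List.range q))

def emb1 (K : ℕ) (J : Sys) : List (List ℕ) :=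
  (List.range (red J).1).map fun v => (cs K (pr (red J).1)).map (v1 J v)

theorem emb1_get (K : ℕ) (J : Sys) {v : ℕ} (hv : v < (red J).1) :
    (emb1 K J).getD v [] = (cs K (pr (red J).1)).map (v1 J v) := by
  unfold emb1
  rw [List.getD_eq_getElem _ _ (by simpa using hv)]; simp

theorem d1_eq (K : ℕ) (J : Sys) {u v : ℕ} (hu : u < (red J).1) (hv : v < (red J).1) :
    dp 1 ((emb1 K J).getD u []) ((emb1 K J).getD v []) =
      ∑ z ∈ (range K ×ˢ range K) ×ˢ (range (pr (red J).1) ×ˢ range (pr (red J).1)),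
        |(v1 J u z : ℝ) - v1 J v z| := by
  unfold dp
  rw [emb1_get K J hu, emb1_get K J hv, List.zip_map', List.map_map,
    ← List.sum_toFinset _ (show (cs K (pr (red J).1)).Nodup from
      (List.nodup_range.product List.nodup_range).product
        (List.nodup_range.product List.nodup_range))]
  simp only [div_one, Real.rpow_one]
  refine sum_congr ?_ fun _ _ => by simp
  ext ⟨⟨a, b⟩, c, d⟩
  simp [cs]

theorem hh_lt (q k y) : hh q k y = 0 ∨ hh q k y = 1 := by unfold hh; omega

theorem ins {K c : ℕ} (q : ℕ) (hc : c < K) :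
    ∑ z ∈ (range K ×ˢ range K) ×ˢ (range q ×ˢ range q),
      (if c = z.1.1 ∨ c = z.1.2 then (1 : ℝ) else 0) = (2 * K - 1) * (q * q) := by
  have : ∀ i j : ℕ, (if c = i ∨ c = j then (1 : ℝ) else 0) = (if c = i then 1 else 0) +
      (if c = j then 1 else 0) - (if c = i then if c = j then 1 else 0 else 0) := fun i j => by
    by_cases h1 : c = i <;> by_cases h2 : c = j <;> simp [h1, h2]
  rw [sum_product, sum_product]
  simp only [sum_const, card_product, card_range, nsmul_eq_mul, ← mul_sum, this, sum_sub_distrib,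
    sum_add_distrib, sum_ite_irrel, sum_ite_eq, mem_range, hc, if_true, sum_const_zero]
  have k : ∑ x ∈ range K, (if c = x then (1 : ℝ) else 0) = 1 := by simp [hc]
  push_cast
  ring_nf
  rw [k]
  ring

theorem v1_abs (J : Sys) (v : ℕ) (z) :
    |(v1 J v z : ℝ) - 1| = if col J v = z.1.1 ∨ col J v = z.1.2 then 1 else 0 := by
  unfold v1
  by_cases h1 : col J v = z.1.1
  · rw [if_pos h1, if_pos (Or.inl h1)]
    rcases hh_lt (pr (red J).1) v z.2 with h | h <;> rw [h] <;> norm_num
  by_cases h2 : col J v = z.1.2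
  · rw [if_neg h1, if_pos h2, if_pos (Or.inr h2)]
    rcases hh_lt (pr (red J).1) (nb J v z.1.1) z.2 with h | h <;> rw [h] <;> norm_num
  · simp [h1, h2]

theorem edge1 {J : Sys} {u v : ℕ} (hu : u < (red J).1) (h : Adj (red J) u v) {z : (ℕ × ℕ) × ℕ × ℕ}
    (h1 : col J u = z.1.1) (h2 : col J v = z.1.2) : |(v1 J u z : ℝ) - v1 J v z| = 2 := by
  have a1 := col_ne h
  have : nb J v z.1.1 = u := by
    rcases nb_cases J v z.1.1 with a | a
    · exact absurd h1 (a.2 u hu (symm h))
    · exact col_uniq a.2.1 (symm h) (a.2.2.trans h1.symm)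
  unfold v1
  rw [if_pos h1, if_neg (by omega), if_pos h2, this]
  rcases hh_lt (pr (red J).1) u z.2 with h | h <;> rw [h] <;> norm_num

section
variable {α : Type} [Enc α] {J : α → Sys} {t s x : α → ℕ}

@[fun_prop] theorem pt_el (hJ : PT J) (ht : PT t) (hs : PT s) : PT fun a => el (J a) (t a) (s a) := by
  unfold el; fun_prop

@[fun_prop] theorem pt_occ (hJ : PT J) (ht : PT t) (hs : PT s) :
    PT fun a => occ (J a) (t a) (s a) := by
  unfold occ; fun_prop

@[fun_prop] theorem pt_col (hJ : PT J) (ht : PT t) : PT fun a => col (J a) (t a) := by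
  unfold col; fun_prop

@[fun_prop] theorem pt_pr (ht : PT t) : PT fun a => pr (t a) := by
  unfold pr; fun_prop

@[fun_prop] theorem pt_hh {y : α → ℕ × ℕ} (ht : PT t) (hs : PT s) (hy : PT y) :
    PT fun a => hh (t a) (s a) (y a) := by
  unfold hh; fun_prop

@[fun_prop] theorem pt_red' (hJ : PT J) : PT fun a => red (J a) := pt_red.comp hJ

@[fun_prop] theorem pt_nb (hJ : PT J) (ht : PT t) (hs : PT s) :
    PT fun a => nb (J a) (t a) (s a) := by
  unfold nb aj; fun_prop

@[fun_prop] theorem pt_v1 {z : α → (ℕ × ℕ) × ℕ × ℕ} (hJ : PT J) (ht : PT t) (hz : PT z) :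
    PT fun a => v1 (J a) (t a) (z a) := by
  unfold v1; fun_prop

end

theorem pt_emb1 (K : ℕ) : PT (emb1 K) := by
  show PT fun J => (List.range (red J).1).map fun v => (cs K (pr (red J).1)).map fun z => v1 J v z
  unfold cs; fun_prop

theorem case1 (h : PTAS (dp 1)) (B : ℕ) (ε : ℝ) (hε : 0 < ε) : NearPerfect B ε := by
  obtain ⟨K, hK⟩ : ∃ K, K = 6 * B + 7 := ⟨_, rfl⟩
  refine main h B _ (pt_emb1 K) (18 * K) (by rw [hK]; positivity) (fun J hJ h0 => ?_) ε hε
  obtain ⟨hq1, hq⟩ := pr_spec (red J).1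
  have hc : ∀ v < (red J).1, col J v < K := fun v hv => hK ▸ col_lt hJ hv
  have q2 : 0 < pr (red J).1 / 2 := by have := hq.two_le; omega
  have pick : ∀ u < (red J).1, ∀ v < (red J).1, u ≠ v → ¬ Adj (red J) u v → ∀ e : ℕ, e < 2 →
      pr (red J).1 / 2 * (pr (red J).1 / 2) ≤ #{y ∈ range (pr (red J).1) ×ˢ range (pr (red J).1) |
        v1 J u ((col J u, col J v), y) = 0 ∧ v1 J v ((col J u, col J v), y) = 2 * e} :=
    fun u hu v hv huv hn e he => by
    by_cases hcc : col J v = col J u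
    · refine (hh_cnt (α := 0) (β := e) hq (hu.trans hq1) (hv.trans hq1) huv (by omega) he).trans
        (card_le_card fun y hy => ?_)
      simp only [mem_filter, v1, hcc, if_true] at hy ⊢
      exact ⟨hy.1, by omega, by omega⟩
    · have a1 : nb J v (col J u) < (red J).1 ∧ u ≠ nb J v (col J u) := by
        rcases nb_cases J v (col J u) with a | a
        · rw [a.1]; exact ⟨hv, huv⟩
        · exact ⟨a.1, fun e => hn (symm (e ▸ a.2.1))⟩
      refine (hh_cnt (α := 0) (β := 1 - e) hq (hu.trans hq1) (a1.1.trans hq1) a1.2 (by omega)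
        (by omega)).trans (card_le_card fun y hy => ?_)
      simp only [mem_filter, v1, hcc, if_true, if_false] at hy ⊢
      exact ⟨hy.1, by omega, by omega⟩
  have tri : ∀ u v z, |(v1 J u z : ℝ) - v1 J v z| ≤ |(v1 J u z : ℝ) - 1| + |(v1 J v z : ℝ) - 1| :=
    fun u v z => by rw [abs_sub_comm (v1 J v z : ℝ)]; exact abs_sub_le _ _ _
  have ed : ∀ u < (red J).1, ∀ v < (red J).1, Adj (red J) u v → ∀ z, |(v1 J u z : ℝ) - v1 J v z| =
      |(v1 J u z : ℝ) - 1| + |(v1 J v z : ℝ) - 1| := fun u hu v hv h z => by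
    have a1 := col_ne h
    by_cases h1 : col J u = z.1.1 ∨ col J u = z.1.2
    · by_cases h2 : col J v = z.1.1 ∨ col J v = z.1.2
      · rw [v1_abs, v1_abs, if_pos h1, if_pos h2, one_add_one_eq_two]
        rcases h1 with h1 | h1
        · exact edge1 hu h h1 (by omega)
        · rw [abs_sub_comm]; exact edge1 hv (symm h) (by omega) h1
      · rw [show v1 J v z = 1 by unfold v1; rw [if_neg (by omega), if_neg (by omega)]]; simp
    · rw [show v1 J u z = 1 by unfold v1; rw [if_neg (by omega), if_neg (by omega)], abs_sub_comm]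
      simp
  have tot : ∀ u < (red J).1, ∀ v < (red J).1,
      ∑ z ∈ (range K ×ˢ range K) ×ˢ (range (pr (red J).1) ×ˢ range (pr (red J).1)),
        (|(v1 J u z : ℝ) - 1| + |(v1 J v z : ℝ) - 1|) =
      2 * ((2 * K - 1) * (pr (red J).1 * pr (red J).1)) := fun u hu v hv => by
    simp only [v1_abs, sum_add_distrib, ins _ (hc u hu), ins _ (hc v hv)]
    ring
  refine ⟨⟨fun e => ?_, ?_, (cs K (pr (red J).1)).length, ?_, fun x hx => ?_⟩,
    2 * ((2 * K - 1) * (pr (red J).1 * pr (red J).1)),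
    2 * ((2 * K - 1) * (pr (red J).1 * pr (red J).1)) -
      2 * ((pr (red J).1 / 2 * (pr (red J).1 / 2) : ℕ) : ℝ),
    ⟨by simp [emb1], fun u hu => ⟨by rw [d1_eq K J hu hu]; simp, fun v hv huv =>
      ⟨fun h => ?_, fun h => ?_⟩⟩⟩, ?_, ?_⟩
  · have := congrArg List.length e
    simp only [emb1, List.length_map, List.length_range, List.length_nil] at this
    have hN : (red J).1 = J.1 + 6 * J.2.length := rfl
    omega
  · refine List.Nodup.map_on (fun u hu v hv e => ?_) List.nodup_range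
    rw [List.mem_range] at hu hv
    by_contra huv
    have e' := List.map_inj_left.1 e
    by_cases h : Adj (red J) u v
    · have := edge1 hu h (z := ((col J u, col J v), 0, 0)) rfl rfl
      rw [e' _ (by simp [cs, List.pair_mem_product, hc u hu, hc v hv, hq.pos])] at this
      simp at this
    · obtain ⟨y, hy⟩ := card_pos.1 ((Nat.mul_pos q2 q2).trans_le (pick u hu v hv huv h 1 (by omega)))
      simp only [mem_filter, mem_product, mem_range] at hy
      have := e' ((col J u, col J v), y) (by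
        obtain ⟨y1, y2⟩ := y
        simp [cs, List.pair_mem_product, hc u hu, hc v hv]; exact hy.1)
      omega
  · exact List.length_pos_of_mem (a := ((0, 0), 0, 0))
      (by simp [cs, List.pair_mem_product, hq.pos, hK])
  · obtain ⟨v, -, rfl⟩ := List.mem_map.1 hx
    simp
  · rw [d1_eq K J hu hv, ← tot u hu v hv]
    exact sum_congr rfl fun z _ => ed u hu v hv h z
  · rw [d1_eq K J hu hv, ← tot u hu v hv, le_sub_iff_add_le', ← le_sub_iff_add_le,
      ← sum_sub_distrib]
    have a1 := (Nat.cast_le (α := ℝ)).2 (pick u hu v hv huv h 0 (by omega))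
    refine (mul_le_mul_of_nonneg_left a1 (by norm_num)).trans ?_
    rw [sum_product]
    refine le_trans ?_ (single_le_sum (a := (col J u, col J v))
      (fun i _ => sum_nonneg fun y _ => sub_nonneg.2 (tri _ _ _))
      (mem_product.2 ⟨mem_range.2 (hc u hu), mem_range.2 (hc v hv)⟩))
    rw [card_filter, Nat.cast_sum, mul_sum]
    refine sum_le_sum fun y _ => ?_
    split_ifs with hy
    · rw [hy.1, hy.2]; norm_num
    · simpa using tri u v _
  · have : (0 : ℝ) < ((pr (red J).1 / 2 * (pr (red J).1 / 2) : ℕ) : ℝ) := by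
      exact_mod_cast Nat.mul_pos q2 q2
    linarith
  · have a1 : pr (red J).1 ≤ 3 * (pr (red J).1 / 2) := by omega
    have a2 := (Nat.cast_le (α := ℝ)).2 (Nat.mul_le_mul a1 a1)
    have a3 : (0 : ℝ) ≤ K := Nat.cast_nonneg _
    have a4 : (0 : ℝ) ≤ pr (red J).1 := Nat.cast_nonneg _
    simp only [Nat.cast_mul, Nat.cast_ofNat] at a2 ⊢
    nlinarith [mul_le_mul_of_nonneg_left a2 a3, mul_nonneg a4 a4]

theorem result (p : ℝ≥0∞) (hp : 1 ≤ p) (h : PTAS (dE p)) (B : ℕ) (ε : ℝ) (hε : 0 < ε) :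
    NearPerfect B ε := by
  by_cases h0 : p = ⊤
  · exact caseT (h0 ▸ h) B ε hε
  have e : dE p = dp p.toReal := by funext x y; exact if_neg h0
  rw [e] at h
  rcases (show 1 ≤ p.toReal by simpa using ENNReal.toReal_mono h0 hp).eq_or_lt with h1 | h1
  · exact case1 (h1 ▸ h) B ε hε
  · exact caseP _ h1 h B ε hε

end Pool.Agent.Results.MP_311ff9_lc.NoPTAS
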